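import Mathlib

set_option autoImplicit false

/-!
# MP_012456_co: partial list colourings of paintable graphs

The painting game, the potential function and the simulation argument.
-/

namespace Pool.Agent.W_MP_012456_h20

open Finset

variable {V : Type*} [Fintype V] [DecidableEq V]

/-- no two vertices of `I` are adjacent -/
def Indep (G : SimpleGraph V) (I : Finset V) : Prop := ∀ u ∈ I, ∀ v ∈ I, ¬ G.Adj u v

/-- every vertex of `M` loses one token -/
def mark (M : Finset V) (f : V → ℕ) : V → ℕ := fun v => if v ∈ M then f v - 1 else f v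

/-- `W` is a set of positions `(U, f)` (`U` = unpainted vertices, `f v` = tokens left at `v`) which
the Painter can keep: every unpainted vertex still has a token, and whatever set `M` of unpainted
vertices is marked (each of them loses one token), the Painter can paint an independent subset `I`
of `M` such that the new position is again in `W`. -/
def Keeps (G : SimpleGraph V) (W : Finset V → (V → ℕ) → Prop) : Prop :=
  ∀ U f, W U f → (∀ v ∈ U, 1 ≤ f v) ∧ ∀ M ⊆ U, ∃ I ⊆ M, Indep G I ∧ W (U \ I) (mark M f)

/-- `G` is `s`-paintable (on-line `s`-choosable). -/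
def Paintable (G : SimpleGraph V) (s : ℕ) : Prop :=
  ∃ W : Finset V → (V → ℕ) → Prop, Keeps G W ∧ W univ (fun _ => s)

/-- In the on-line partial colouring game in which every vertex is marked at most `t` times, and
which ends when every unpainted vertex has been marked `t` times, the Painter can make sure that at
least `K` vertices are painted. `R` is the set of positions `(U, l)` which the Painter keeps, `U` is
the set of unpainted vertices and `l v` is the number of marks still to come at `v`. -/
def CanPaint (G : SimpleGraph V) (t : ℕ) (K : ℝ) : Prop :=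
  ∃ R : Finset V → (V → ℕ) → Prop,
    (∀ U l, R U l → ∀ M ⊆ U, (∀ v ∈ M, 1 ≤ l v) →
      ∃ I ⊆ M, Indep G I ∧ R (U \ I) (mark M l)) ∧
    (∀ U l, R U l → (∀ v ∈ U, l v = 0) → K ≤ (Uᶜ.card : ℝ)) ∧
    R univ (fun _ => t)

/-- what the simulation argument needs from a gain function `g f l` (`f` = tokens left, `l` = marks
still to come): it is at most `x`, it is at most `0` if no mark comes, and it is not larger than the
average of its two successors, in which `k` or `k + 1` tokens were used -/
structure IsGain (k : ℕ) (ρ x : ℝ) (g : ℕ → ℕ → ℝ) : Prop where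
  le : ∀ f l, g f l ≤ x
  zero : ∀ f, 1 ≤ f → g f 0 ≤ 0
  step : ∀ f l, g (f + k + 1) (l + 1) ≤ (1 - ρ) * g (f + 1) l + ρ * g f l

/-- the potential -/
noncomputable def pot (g : ℕ → ℕ → ℝ) (U : Finset V) (f l : V → ℕ) : ℝ := ∑ v ∈ U, g (f v) (l v)

/-- a strategy (answers to marked sets) -/
abbrev Strat (V : Type*) := Finset V → (V → ℕ) → Finset V → Finset V

/-- the position after `j` repetitions of the marked set `M` -/
def chain (σ : Strat V) (M : Finset V) (U : Finset V) (f : V → ℕ) : ℕ → Finset V × (V → ℕ)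
  | 0 => (U, f)
  | j + 1 =>
    ((chain σ M U f j).1 \ σ (chain σ M U f j).1 (chain σ M U f j).2 (M ∩ (chain σ M U f j).1),
      mark (M ∩ (chain σ M U f j).1) (chain σ M U f j).2)

/-- the answer to the repetition number `j` -/
def ans (σ : Strat V) (M : Finset V) (U : Finset V) (f : V → ℕ) (j : ℕ) : Finset V :=
  σ (chain σ M U f j).1 (chain σ M U f j).2 (M ∩ (chain σ M U f j).1)

/-- `σ` keeps `W` -/
def Good (G : SimpleGraph V) (W : Finset V → (V → ℕ) → Prop) (σ : Strat V) : Prop :=
  ∀ U f, W U f → ∀ M ⊆ U, σ U f M ⊆ M ∧ Indep G (σ U f M) ∧ W (U \ σ U f M) (mark M f)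

lemma exists_good (G : SimpleGraph V) {W : Finset V → (V → ℕ) → Prop} (hW : Keeps G W) :
    ∃ σ : Strat V, Good G W σ := by
  classical
  have h : ∀ U f M, ∃ I : Finset V, W U f → M ⊆ U → I ⊆ M ∧ Indep G I ∧ W (U \ I) (mark M f) := by
    intro U f M
    by_cases hU : W U f
    · by_cases hM : M ⊆ U
      · obtain ⟨I, h1, h2, h3⟩ := (hW U f hU).2 M hM
        exact ⟨I, fun _ _ => ⟨h1, h2, h3⟩⟩
      · exact ⟨∅, fun _ h => absurd h hM⟩
    · exact ⟨∅, fun h => absurd h hU⟩
  choose σ hσ using h
  exact ⟨σ, fun U f hU M hM => hσ U f M hU hM⟩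

section Chain

variable {G : SimpleGraph V} {W : Finset V → (V → ℕ) → Prop} {σ : Strat V}

lemma chain_W (hσ : Good G W σ) (M U : Finset V) (f : V → ℕ) (hU : W U f) (j : ℕ) :
    W (chain σ M U f j).1 (chain σ M U f j).2 := by
  induction j with
  | zero => exact hU
  | succ j ih => exact (hσ _ _ ih _ Finset.inter_subset_right).2.2

lemma ans_sub (hσ : Good G W σ) (M U : Finset V) (f : V → ℕ) (hU : W U f) (j : ℕ) :
    ans σ M U f j ⊆ M ∩ (chain σ M U f j).1 :=
  (hσ _ _ (chain_W hσ M U f hU j) _ Finset.inter_subset_right).1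

lemma ans_indep (hσ : Good G W σ) (M U : Finset V) (f : V → ℕ) (hU : W U f) (j : ℕ) :
    Indep G (ans σ M U f j) :=
  (hσ _ _ (chain_W hσ M U f hU j) _ Finset.inter_subset_right).2.1

lemma chain_succ (σ : Strat V) (M U : Finset V) (f : V → ℕ) (j : ℕ) :
    (chain σ M U f (j + 1)).1 = (chain σ M U f j).1 \ ans σ M U f j := rfl

lemma chain_mono (σ : Strat V) (M U : Finset V) (f : V → ℕ) {i j : ℕ} (hij : i ≤ j) :
    (chain σ M U f j).1 ⊆ (chain σ M U f i).1 := by
  induction j, hij using Nat.le_induction with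
  | base => exact subset_rfl
  | succ j _ ih =>
    rw [chain_succ]
    exact Finset.sdiff_subset.trans ih

lemma chain_tokens (σ : Strat V) (M U : Finset V) (f : V → ℕ) (j : ℕ) :
    ∀ v ∈ (chain σ M U f j).1, (chain σ M U f j).2 v = if v ∈ M then f v - j else f v := by
  induction j with
  | zero =>
    intro v _
    simp [chain]
  | succ j ih =>
    intro v hv
    have hv' : v ∈ (chain σ M U f j).1 := chain_mono σ M U f (Nat.le_succ j) hv
    have h := ih v hv'
    show mark (M ∩ (chain σ M U f j).1) (chain σ M U f j).2 v = _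
    unfold mark
    by_cases hvM : v ∈ M
    · rw [if_pos (Finset.mem_inter.2 ⟨hvM, hv'⟩), h, if_pos hvM, if_pos hvM]
      omega
    · rw [if_neg (fun h => hvM (Finset.mem_inter.1 h).1), h, if_neg hvM, if_neg hvM]

end Chain

/-- one marked set `M`: the Painter plays `k` or `k + 1` rounds of the simulated game, all with the
set `M`, and accepts one of the answers -/
lemma accept (G : SimpleGraph V) {W : Finset V → (V → ℕ) → Prop} (hW : Keeps G W) {k : ℕ}
    (hk : 1 ≤ k) {ρ x : ℝ} (h0 : 0 ≤ ρ) (h1 : ρ ≤ 1) (hx : x * (k + ρ) = 1)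
    {g : ℕ → ℕ → ℝ} (hg : IsGain k ρ x g) (M : Finset V) (l : V → ℕ) (hl : ∀ v ∈ M, 1 ≤ l v)
    (U : Finset V) (f : V → ℕ) (hU : W U f) :
      ∃ I ⊆ M ∩ U, ∃ U₂ ⊆ U \ I, ∃ f₂, Indep G I ∧ W U₂ f₂ ∧
        pot g U f l ≤ pot g U₂ f₂ (mark M l) + (I.card : ℝ) := by
  obtain ⟨σ, hσ⟩ := exists_good G hW
  have hk0 : (0 : ℝ) < k := by exact_mod_cast hk
  have hx0 : 0 < x := by
    by_contra hcon
    have : x * (k + ρ) ≤ 0 := mul_nonpos_of_nonpos_of_nonneg (not_lt.1 hcon) (by linarith)
    linarith
  have hρx : ρ * x ≤ 1 := by nlinarith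
  -- the partial sums of the potential
  set A : ℕ → ℝ := fun j => ∑ v ∈ (chain σ M U f j).1, g (f v) (l v) with hA
  have hstep : ∀ j, A j ≤ x * ((ans σ M U f j).card : ℝ) + A (j + 1) := by
    intro j
    have hsub : ans σ M U f j ⊆ (chain σ M U f j).1 :=
      (ans_sub hσ M U f hU j).trans Finset.inter_subset_right
    have e0 : A j = A (j + 1) + ∑ v ∈ ans σ M U f j, g (f v) (l v) := by
      simp only [hA]
      rw [chain_succ, Finset.sum_sdiff hsub]
    have e1 : ∑ v ∈ ans σ M U f j, g (f v) (l v) ≤ x * ((ans σ M U f j).card : ℝ) := by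
      calc ∑ v ∈ ans σ M U f j, g (f v) (l v) ≤ ∑ _v ∈ ans σ M U f j, x :=
            Finset.sum_le_sum (fun v _ => hg.le _ _)
        _ = x * ((ans σ M U f j).card : ℝ) := by rw [Finset.sum_const, nsmul_eq_mul, mul_comm]
    linarith
  -- the largest of the first `k` answers
  obtain ⟨j, hj, hmax⟩ := Finset.exists_max_image (range k) (fun j => (ans σ M U f j).card)
    ⟨0, Finset.mem_range.2 hk⟩
  have hjk : j < k := Finset.mem_range.1 hj
  set X : ℝ := ((ans σ M U f j).card : ℝ) with hX
  have hsum : ∀ i ≤ k, A 0 ≤ x * (i * X) + A i := by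
    intro i
    induction i with
    | zero =>
      intro _
      simp
    | succ i ih =>
      intro hi
      have h2 := ih (by omega)
      have h3 := hstep i
      have h4 : ((ans σ M U f i).card : ℝ) ≤ X := by
        have := hmax i (Finset.mem_range.2 (by omega))
        rw [hX]
        exact_mod_cast this
      have h5 := mul_le_mul_of_nonneg_left h4 hx0.le
      push_cast
      linarith
  set P : ℝ := pot g (chain σ M U f k).1 (chain σ M U f k).2 (mark M l) with hP
  set Q : ℝ := pot g (chain σ M U f (k + 1)).1 (chain σ M U f (k + 1)).2 (mark M l) with hQ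
  set Y : ℝ := ((ans σ M U f k).card : ℝ) with hY
  have hWk := chain_W hσ M U f hU k
  have hWk1 := chain_W hσ M U f hU (k + 1)
  -- the last step
  have hlast : A k ≤ ρ * x * Y + (1 - ρ) * P + ρ * Q := by
    have hsub : ans σ M U f k ⊆ (chain σ M U f k).1 :=
      (ans_sub hσ M U f hU k).trans Finset.inter_subset_right
    have e0 : A k = ∑ v ∈ (chain σ M U f (k + 1)).1, g (f v) (l v) +
        ∑ v ∈ ans σ M U f k, g (f v) (l v) := by
      simp only [hA]
      rw [chain_succ, Finset.sum_sdiff hsub]
    have e1 : P = ∑ v ∈ (chain σ M U f (k + 1)).1, g ((chain σ M U f k).2 v) (mark M l v) +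
        ∑ v ∈ ans σ M U f k, g ((chain σ M U f k).2 v) (mark M l v) := by
      rw [hP]
      unfold pot
      rw [chain_succ, Finset.sum_sdiff hsub]
    have e2 : ∑ v ∈ ans σ M U f k, g (f v) (l v) ≤
        ρ * x * Y + (1 - ρ) * ∑ v ∈ ans σ M U f k, g ((chain σ M U f k).2 v) (mark M l v) := by
      have : ρ * x * Y = ∑ _v ∈ ans σ M U f k, ρ * x := by
        rw [Finset.sum_const, nsmul_eq_mul, hY]
        ring
      rw [this, Finset.mul_sum, ← Finset.sum_add_distrib]
      apply Finset.sum_le_sum
      intro v hv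
      have hvM : v ∈ M := (Finset.mem_inter.1 (ans_sub hσ M U f hU k hv)).1
      have hvU := hsub hv
      have ht := chain_tokens σ M U f k v hvU
      have h3 := (hW _ _ hWk).1 v hvU
      rw [ht, if_pos hvM] at h3
      rw [ht, if_pos hvM]
      have h4 := hl v hvM
      have h5 : mark M l v = l v - 1 := by simp [mark, hvM]
      rw [h5]
      have h6 := hg.step (f v - k - 1) (l v - 1)
      have e3 : f v - k - 1 + k + 1 = f v := by omega
      have e4 : f v - k - 1 + 1 = f v - k := by omega
      have e5 : l v - 1 + 1 = l v := by omega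
      rw [e3, e4, e5] at h6
      have h7 := mul_le_mul_of_nonneg_left (hg.le (f v - k - 1) (l v - 1)) h0
      linarith
    have e3 : ∑ v ∈ (chain σ M U f (k + 1)).1, g (f v) (l v) ≤
        (1 - ρ) * ∑ v ∈ (chain σ M U f (k + 1)).1, g ((chain σ M U f k).2 v) (mark M l v) +
        ρ * Q := by
      rw [hQ]
      unfold pot
      rw [Finset.mul_sum, Finset.mul_sum, ← Finset.sum_add_distrib]
      apply Finset.sum_le_sum
      intro v hv
      have hvU : v ∈ (chain σ M U f k).1 := chain_mono σ M U f (Nat.le_succ k) hv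
      have ht := chain_tokens σ M U f k v hvU
      have ht' := chain_tokens σ M U f (k + 1) v hv
      by_cases hvM : v ∈ M
      · have h3 := (hW _ _ hWk1).1 v hv
        rw [ht', if_pos hvM] at h3
        rw [ht, ht', if_pos hvM, if_pos hvM]
        have h4 := hl v hvM
        have h5 : mark M l v = l v - 1 := by simp [mark, hvM]
        rw [h5]
        have h6 := hg.step (f v - k - 1) (l v - 1)
        have e3 : f v - k - 1 + k + 1 = f v := by omega
        have e4 : f v - k - 1 + 1 = f v - k := by omega
        have e5 : l v - 1 + 1 = l v := by omega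
        have e6 : f v - (k + 1) = f v - k - 1 := by omega
        rw [e3, e4, e5] at h6
        rw [e6]
        exact h6
      · have h5 : mark M l v = l v := by simp [mark, hvM]
        rw [ht, ht', if_neg hvM, if_neg hvM, h5]
        apply le_of_eq
        ring
    rw [e0, e1]
    linarith
  have hA0 : A 0 = pot g U f l := rfl
  have hmain : pot g U f l ≤ (1 - ρ * x) * X + ρ * x * Y + (1 - ρ) * P + ρ * Q := by
    have h2 := hsum k le_rfl
    rw [hA0] at h2
    have h3 : x * (k * X) = (1 - ρ * x) * X := by
      have : x * k = 1 - ρ * x := by linarith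
      calc x * (k * X) = (x * k) * X := by ring
        _ = _ := by rw [this]
    linarith
  -- choose the best outcome
  have hjU : (chain σ M U f j).1 ⊆ U := chain_mono σ M U f (Nat.zero_le j)
  have hkU : (chain σ M U f k).1 ⊆ U := chain_mono σ M U f (Nat.zero_le k)
  have hansj : ans σ M U f j ⊆ M ∩ U :=
    (ans_sub hσ M U f hU j).trans (Finset.inter_subset_inter_left hjU)
  have hansk : ans σ M U f k ⊆ M ∩ U :=
    (ans_sub hσ M U f hU k).trans (Finset.inter_subset_inter_left hkU)
  have hsubj : ∀ i, j + 1 ≤ i → (chain σ M U f i).1 ⊆ U \ ans σ M U f j := by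
    intro i hi
    refine (chain_mono σ M U f hi).trans ?_
    rw [chain_succ]
    exact Finset.sdiff_subset_sdiff hjU subset_rfl
  by_cases c1 : pot g U f l ≤ P + X
  · exact ⟨_, hansj, _, hsubj k hjk, _, ans_indep hσ M U f hU j, hWk, c1⟩
  by_cases c2 : pot g U f l ≤ Q + X
  · exact ⟨_, hansj, _, hsubj (k + 1) (by omega), _, ans_indep hσ M U f hU j, hWk1, c2⟩
  by_cases c3 : pot g U f l ≤ Q + Y
  · refine ⟨_, hansk, _, ?_, _, ans_indep hσ M U f hU k, hWk1, c3⟩
    rw [chain_succ]
    exact Finset.sdiff_subset_sdiff hkU subset_rfl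
  exfalso
  have d1 := not_le.1 c1
  have d2 := not_le.1 c2
  have d3 := not_le.1 c3
  have hρx0 : 0 ≤ ρ * x := mul_nonneg h0 hx0.le
  have hx1 : x ≤ 1 := by
    have : (1 : ℝ) ≤ k := by exact_mod_cast hk
    nlinarith
  -- weights ρ x, 1 - ρ, ρ - ρ x
  have w1 : (1 - ρ) * (P + X) ≤ (1 - ρ) * pot g U f l :=
    mul_le_mul_of_nonneg_left d1.le (by linarith)
  have w2 : (ρ * (1 - x)) * (Q + X) ≤ (ρ * (1 - x)) * pot g U f l :=
    mul_le_mul_of_nonneg_left d2.le (mul_nonneg h0 (by linarith))
  have w3 : (ρ * x) * (Q + Y) ≤ (ρ * x) * pot g U f l := mul_le_mul_of_nonneg_left d3.le hρx0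
  rcases eq_or_lt_of_le h1 with h1' | h1'
  · -- then ρ = 1, use one of the other two
    rw [h1'] at hmain w2 w3
    rcases eq_or_lt_of_le hx1 with hx1' | hx1'
    · rw [hx1'] at hmain
      linarith
    · have w2' : (1 * (1 - x)) * (Q + X) < (1 * (1 - x)) * pot g U f l :=
        mul_lt_mul_of_pos_left d2 (by linarith)
      nlinarith
  · have w1' : (1 - ρ) * (P + X) < (1 - ρ) * pot g U f l :=
      mul_lt_mul_of_pos_left d1 (by linarith)
    nlinarith

/-- the simulation theorem -/
theorem canPaint_of_paintable (G : SimpleGraph V) (s t : ℕ) (hG : Paintable G s) {k : ℕ}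
    (hk : 1 ≤ k) {ρ x : ℝ} (h0 : 0 ≤ ρ) (h1 : ρ ≤ 1) (hx : x * (k + ρ) = 1)
    {g : ℕ → ℕ → ℝ} (hg : IsGain k ρ x g) :
    CanPaint G t (g s t * (Fintype.card V : ℝ)) := by
  obtain ⟨W, hW, hW0⟩ := hG
  set K := g s t * (Fintype.card V : ℝ) with hK
  refine ⟨fun U l => ∃ U₁ ⊆ U, ∃ f, W U₁ f ∧ K ≤ pot g U₁ f l + (Uᶜ.card : ℝ), ?_, ?_, ?_⟩
  · rintro U l ⟨U₁, hU₁, f, hf, hpot⟩ M hM hl
    obtain ⟨I, hI, U₂, hU₂, f₂, g1, g2, g3⟩ :=
      accept G hW hk h0 h1 hx hg M l hl U₁ f hf
    have hIM : I ⊆ M := hI.trans Finset.inter_subset_left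
    refine ⟨I, hIM, g1, U₂, hU₂.trans (Finset.sdiff_subset_sdiff hU₁ subset_rfl), f₂, g2, ?_⟩
    have hc : ((U \ I)ᶜ).card = Uᶜ.card + I.card := by
      have : (U \ I)ᶜ = Uᶜ ∪ I := by
        ext v
        simp only [Finset.mem_compl, Finset.mem_sdiff, Finset.mem_union]
        tauto
      rw [this, Finset.card_union_of_disjoint]
      rw [Finset.disjoint_left]
      intro v hv hvI
      exact (Finset.mem_compl.1 hv) (hM (hIM hvI))
    rw [hc]
    push_cast
    linarith
  · rintro U l ⟨U₁, hU₁, f, hf, hpot⟩ hl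
    have : pot g U₁ f l ≤ 0 := by
      unfold pot
      apply Finset.sum_nonpos
      intro v hv
      rw [hl v (hU₁ hv)]
      exact hg.zero _ ((hW U₁ f hf).1 v hv)
    linarith
  · refine ⟨univ, subset_rfl, fun _ => s, hW0, ?_⟩
    unfold pot
    rw [Finset.sum_const, nsmul_eq_mul, Finset.card_univ]
    simp only [Finset.compl_univ, Finset.card_empty, Nat.cast_zero, add_zero]
    rw [hK]
    apply le_of_eq
    ring

/-- a smaller goal is easier -/
theorem CanPaint.mono {G : SimpleGraph V} {t : ℕ} {K K' : ℝ} (h : CanPaint G t K) (hK : K' ≤ K) :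
    CanPaint G t K' := by
  obtain ⟨R, h1, h2, h3⟩ := h
  exact ⟨R, h1, fun U l hU hl => hK.trans (h2 U l hU hl), h3⟩

/-- on-line partial painting gives partial list colourings -/
theorem exists_coloring_of_canPaint (G : SimpleGraph V) (t : ℕ) (ht : 1 ≤ t) (K : ℝ)
    (h : CanPaint G t K)
    {C : Type*} [DecidableEq C] (L : V → Finset C) (hL : ∀ v, (L v).card = t) :
    ∃ (S : Finset V) (c : V → C), (∀ v ∈ S, c v ∈ L v) ∧
      (∀ u ∈ S, ∀ v ∈ S, G.Adj u v → c u ≠ c v) ∧ K ≤ (S.card : ℝ) := by
  obtain ⟨R, hR1, hR2, hR3⟩ := h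
  -- process a finite set of colours
  have main : ∀ (n : ℕ) (P : Finset C), P.card = n → ∀ (U : Finset V) (l : V → ℕ), R U l →
      (∀ v ∈ U, l v = ((L v) ∩ P).card) →
      ∃ (S : Finset V) (c : V → Option C), S ⊆ U ∧ (∀ v ∈ S, ∃ x ∈ L v ∩ P, c v = some x) ∧
        (∀ u ∈ S, ∀ v ∈ S, G.Adj u v → c u ≠ c v) ∧ K ≤ (Uᶜ.card : ℝ) + (S.card : ℝ) := by
    intro n
    induction n with
    | zero =>
      intro P hP U l hU hl
      have hP0 : P = ∅ := Finset.card_eq_zero.1 hP
      refine ⟨∅, fun _ => none, by simp, by simp, by simp, ?_⟩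
      have := hR2 U l hU (by intro v hv; rw [hl v hv, hP0]; simp)
      simpa using this
    | succ n ih =>
      intro P hP U l hU hl
      obtain ⟨x, hx⟩ : P.Nonempty := Finset.card_pos.1 (by omega)
      set M := U.filter (fun v => x ∈ L v) with hM
      obtain ⟨I, hI, hind, hR'⟩ := hR1 U l hU M (Finset.filter_subset _ _) (by
        intro v hv
        have hv' := Finset.mem_filter.1 hv
        rw [hl v hv'.1]
        exact Finset.card_pos.2 ⟨x, Finset.mem_inter.2 ⟨hv'.2, hx⟩⟩)
      have hIU : I ⊆ U := hI.trans (Finset.filter_subset _ _)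
      obtain ⟨S, c, h1, h2, h3, h4⟩ := ih (P.erase x) (by rw [Finset.card_erase_of_mem hx, hP]; rfl)
        (U \ I) (mark M l) hR' (by
          intro v hv
          have hvU := (Finset.mem_sdiff.1 hv).1
          unfold mark
          by_cases hxv : x ∈ L v
          · have : v ∈ M := Finset.mem_filter.2 ⟨hvU, hxv⟩
            rw [if_pos this, hl v hvU]
            have : L v ∩ P.erase x = (L v ∩ P).erase x := by
              ext y
              simp only [Finset.mem_inter, Finset.mem_erase]
              tauto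
            rw [this, Finset.card_erase_of_mem (Finset.mem_inter.2 ⟨hxv, hx⟩)]
          · have : v ∉ M := by
              intro hvM
              exact hxv (Finset.mem_filter.1 hvM).2
            rw [if_neg this, hl v hvU]
            congr 1
            ext y
            simp only [Finset.mem_inter, Finset.mem_erase]
            constructor
            · rintro ⟨a1, a2⟩
              exact ⟨a1, by rintro rfl; exact hxv a1, a2⟩
            · rintro ⟨a1, _, a2⟩
              exact ⟨a1, a2⟩)
      have hdis : Disjoint S I := by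
        rw [Finset.disjoint_left]
        intro v hv
        exact (Finset.mem_sdiff.1 (h1 hv)).2
      refine ⟨S ∪ I, fun v => if v ∈ I then some x else c v, ?_, ?_, ?_, ?_⟩
      · exact Finset.union_subset (h1.trans Finset.sdiff_subset) hIU
      · intro v hv
        by_cases hvI : v ∈ I
        · refine ⟨x, Finset.mem_inter.2 ⟨(Finset.mem_filter.1 (hI hvI)).2, hx⟩, by simp [hvI]⟩
        · have hvS : v ∈ S := by
            rcases Finset.mem_union.1 hv with h | h
            · exact h
            · exact absurd h hvI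
          obtain ⟨y, hy, hcy⟩ := h2 v hvS
          refine ⟨y, ?_, by simp [hvI, hcy]⟩
          have hy' := Finset.mem_inter.1 hy
          exact Finset.mem_inter.2 ⟨hy'.1, (Finset.mem_erase.1 hy'.2).2⟩
      · have aux : ∀ v ∈ S, c v ≠ some x := by
          intro v hv hcx
          obtain ⟨y, hy, hcy⟩ := h2 v hv
          rw [hcx] at hcy
          have : x = y := by simpa using hcy
          subst this
          exact (Finset.mem_erase.1 (Finset.mem_inter.1 hy).2).1 rfl
        intro u hu v hv huv
        have cases : ∀ w ∈ S ∪ I, w ∉ I → w ∈ S := by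
          intro w hw hwI
          rcases Finset.mem_union.1 hw with h | h
          · exact h
          · exact absurd h hwI
        by_cases huI : u ∈ I
        · by_cases hvI : v ∈ I
          · exact absurd huv (hind u huI v hvI)
          · simp only [huI, hvI, if_true, if_false]
            exact fun h => aux v (cases v hv hvI) h.symm
        · by_cases hvI : v ∈ I
          · simp only [huI, hvI, if_true, if_false]
            exact aux u (cases u hu huI)
          · simp only [huI, hvI, if_false]
            exact h3 u (cases u hu huI) v (cases v hv hvI) huv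
      · have hc : ((U \ I)ᶜ).card = Uᶜ.card + I.card := by
          have : (U \ I)ᶜ = Uᶜ ∪ I := by
            ext v
            simp only [Finset.mem_compl, Finset.mem_sdiff, Finset.mem_union]
            tauto
          rw [this, Finset.card_union_of_disjoint]
          rw [Finset.disjoint_left]
          intro v hv hvI
          exact (Finset.mem_compl.1 hv) (hIU hvI)
        rw [hc] at h4
        rw [Finset.card_union_of_disjoint hdis]
        push_cast at h4 ⊢
        linarith
  obtain ⟨S, c, h1, h2, h3, h4⟩ := main _ (univ.biUnion L) rfl univ (fun _ => t) hR3 (by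
    intro v _
    have : L v ∩ univ.biUnion L = L v := by
      apply Finset.inter_eq_left.2
      intro y hy
      exact Finset.mem_biUnion.2 ⟨v, Finset.mem_univ v, hy⟩
    rw [this, hL v])
  by_cases hC : Nonempty C
  · obtain ⟨x₀⟩ := hC
    refine ⟨S, fun v => (c v).getD x₀, ?_, ?_, ?_⟩
    · intro v hv
      obtain ⟨y, hy, hcy⟩ := h2 v hv
      simp only [hcy, Option.getD_some]
      exact (Finset.mem_inter.1 hy).1
    · intro u hu v hv huv
      obtain ⟨y, _, hcy⟩ := h2 u hu
      obtain ⟨z, _, hcz⟩ := h2 v hv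
      have := h3 u hu v hv huv
      rw [hcy, hcz] at this
      simp only [hcy, hcz, Option.getD_some]
      intro h
      exact this (by rw [h])
    · simpa using h4
  · have hS : S = ∅ := by
      by_contra hne
      obtain ⟨v, hv⟩ := Finset.nonempty_iff_ne_empty.2 hne
      obtain ⟨y, _, _⟩ := h2 v hv
      exact hC ⟨y⟩
    have hV : ∀ _ : V, False := by
      intro v
      have : 0 < (L v).card := by
        rw [hL v]
        omega
      obtain ⟨y, _⟩ := Finset.card_pos.1 this
      exact hC ⟨y⟩
    exact ⟨∅, fun v => (hV v).elim, by simp, by simp, by simpa [hS] using h4⟩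

end Pool.Agent.W_MP_012456_h20
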