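import Pool.Agent.W_MP_012456_h20.Paint

set_option autoImplicit false

/-!
# MP_012456_co: binomial tails as gain functions, and the numerical form of the bound
-/

namespace Pool.Agent.W_MP_012456_h20

open Finset MeasureTheory ProbabilityTheory

/-- the probability that a binomial random variable with parameters `m`, `ρ` is smaller than `r` -/
noncomputable def binLt (ρ : ℝ) (m r : ℕ) : ℝ :=
  ∑ i ∈ range r, (m.choose i : ℝ) * ρ ^ i * (1 - ρ) ^ (m - i)

lemma binLt_zero (ρ : ℝ) (m : ℕ) : binLt ρ m 0 = 0 := by simp [binLt]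

lemma binLt_nonneg {ρ : ℝ} (h0 : 0 ≤ ρ) (h1 : ρ ≤ 1) (m r : ℕ) : 0 ≤ binLt ρ m r := by
  unfold binLt
  apply Finset.sum_nonneg
  intro i _
  have : 0 ≤ 1 - ρ := by linarith
  positivity

lemma binLt_zero_left (ρ : ℝ) {r : ℕ} (hr : 1 ≤ r) : binLt ρ 0 r = 1 := by
  unfold binLt
  rw [Finset.sum_eq_single 0]
  · simp
  · intro i _ hi
    rw [Nat.choose_eq_zero_of_lt (Nat.pos_of_ne_zero hi)]
    simp
  · intro h
    exact absurd (Finset.mem_range.2 hr) h

/-- the Pascal recursion -/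
lemma binLt_succ (ρ : ℝ) (m r : ℕ) :
    binLt ρ (m + 1) (r + 1) = ρ * binLt ρ m r + (1 - ρ) * binLt ρ m (r + 1) := by
  unfold binLt
  rw [Finset.sum_range_succ' _ r]
  rw [Finset.mul_sum, Finset.mul_sum]
  rw [Finset.sum_range_succ' _ r]
  have e1 : ∀ i ∈ range r, (((m + 1).choose (i + 1) : ℕ) : ℝ) * ρ ^ (i + 1) *
      (1 - ρ) ^ (m + 1 - (i + 1)) = ρ * ((m.choose i : ℝ) * ρ ^ i * (1 - ρ) ^ (m - i)) +
      (1 - ρ) * ((m.choose (i + 1) : ℝ) * ρ ^ (i + 1) * (1 - ρ) ^ (m - (i + 1))) := by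
    intro i _
    rw [Nat.choose_succ_succ]
    have e2 : m + 1 - (i + 1) = m - i := by omega
    rw [e2]
    push_cast
    rcases Nat.lt_or_ge i m with h | h
    · have e3 : m - i = (m - (i + 1)) + 1 := by omega
      rw [e3, pow_succ]
      ring
    · rw [Nat.choose_eq_zero_of_lt (show m < i + 1 by omega)]
      simp
      ring
  rw [Finset.sum_congr rfl e1, Finset.sum_add_distrib]
  have e4 : m + 1 - 0 = (m - 0) + 1 := by omega
  rw [e4, pow_succ]
  simp
  ring

/-- the gain function of the two-valued scheme: `x` times the probability that `k l + Bin(l, ρ)` is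
at least `f` -/
lemma isGain_bin {k : ℕ} {ρ x : ℝ} (h0 : 0 ≤ ρ) (h1 : ρ ≤ 1) (hx : 0 ≤ x) :
    IsGain k ρ x (fun f l => x * (1 - binLt ρ l (f - k * l))) := by
  refine ⟨?_, ?_, ?_⟩
  · intro f l
    have := binLt_nonneg h0 h1 l (f - k * l)
    nlinarith
  · intro f hf
    have e : f - k * 0 = f := by omega
    simp only [e]
    rw [binLt_zero_left ρ hf]
    simp
  · intro f l
    have e1 : f + k + 1 - k * (l + 1) = f + 1 - k * l := by
      rw [Nat.mul_succ]
      omega
    simp only [e1]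
    rcases Nat.lt_or_ge (k * l) (f + 1) with h | h
    · have e2 : f + 1 - k * l = (f - k * l) + 1 := by omega
      rw [e2, binLt_succ]
      apply le_of_eq
      ring
    · have e2 : f + 1 - k * l = 0 := by omega
      have e3 : f - k * l = 0 := by omega
      rw [e2, e3, binLt_zero, binLt_zero]
      apply le_of_eq
      ring

/-- the exponential bound for the tail -/
lemma binLt_le {ρ : ℝ} (h0 : 0 ≤ ρ) (h1 : ρ ≤ 1) {u : ℝ} (hu : 0 ≤ u) (m r : ℕ) :
    binLt ρ m r ≤ Real.exp (u * r) * (1 - ρ + ρ * Real.exp (-u)) ^ m := by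
  have hb : 0 ≤ 1 - ρ + ρ * Real.exp (-u) := by
    have := mul_nonneg h0 (Real.exp_pos (-u)).le
    linarith
  induction m generalizing r with
  | zero =>
    rcases Nat.eq_zero_or_pos r with rfl | hr
    · rw [binLt_zero]
      positivity
    · rw [binLt_zero_left ρ hr, pow_zero, mul_one]
      exact Real.one_le_exp (by positivity)
  | succ m ih =>
    rcases Nat.eq_zero_or_pos r with rfl | hr
    · rw [binLt_zero]
      positivity
    · obtain ⟨r, rfl⟩ : ∃ j, r = j + 1 := ⟨r - 1, by omega⟩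
      rw [binLt_succ]
      have i1 := mul_le_mul_of_nonneg_left (ih r) h0
      have i2 := mul_le_mul_of_nonneg_left (ih (r + 1)) (by linarith : 0 ≤ 1 - ρ)
      have e : Real.exp (u * r) = Real.exp (u * ((r + 1 : ℕ) : ℝ)) * Real.exp (-u) := by
        rw [← Real.exp_add]
        congr 1
        push_cast
        ring
      rw [e] at i1
      calc ρ * binLt ρ m r + (1 - ρ) * binLt ρ m (r + 1)
          ≤ ρ * (Real.exp (u * ((r + 1 : ℕ) : ℝ)) * Real.exp (-u) *
              (1 - ρ + ρ * Real.exp (-u)) ^ m) +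
            (1 - ρ) * (Real.exp (u * ((r + 1 : ℕ) : ℝ)) * (1 - ρ + ρ * Real.exp (-u)) ^ m) :=
            add_le_add i1 i2
        _ = Real.exp (u * ((r + 1 : ℕ) : ℝ)) * (1 - ρ + ρ * Real.exp (-u)) ^ (m + 1) := by
            rw [pow_succ]
            ring

/-- Hoeffding's lemma for a Bernoulli random variable -/
lemma hoeffding {ρ : ℝ} (h0 : 0 ≤ ρ) (h1 : ρ ≤ 1) (u : ℝ) :
    1 - ρ + ρ * Real.exp (-u) ≤ Real.exp (-(u * ρ) + u ^ 2 / 8) := by
  set μ : Measure ℝ := ENNReal.ofReal (1 - ρ) • Measure.dirac (0 : ℝ) +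
    ENNReal.ofReal ρ • Measure.dirac (1 : ℝ) with hμ
  have hp : IsProbabilityMeasure μ := by
    refine ⟨?_⟩
    rw [hμ]
    simp only [Measure.coe_add, Measure.coe_smul, Pi.add_apply, Pi.smul_apply, measure_univ,
      smul_eq_mul, mul_one]
    rw [← ENNReal.ofReal_add (by linarith) h0]
    simp
  have hint : ∀ φ : ℝ → ℝ, ∫ y, φ y ∂μ = (1 - ρ) * φ 0 + ρ * φ 1 := by
    intro φ
    rw [hμ, integral_add_measure, integral_smul_measure, integral_smul_measure, integral_dirac,
      integral_dirac]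
    · rw [ENNReal.toReal_ofReal (by linarith), ENNReal.toReal_ofReal h0]
      simp
    · apply Integrable.smul_measure _ ENNReal.ofReal_ne_top
      exact integrable_dirac (by simp)
    · apply Integrable.smul_measure _ ENNReal.ofReal_ne_top
      exact integrable_dirac (by simp)
  have hb : ∀ᵐ y ∂μ, (id y : ℝ) ∈ Set.Icc (0 : ℝ) 1 := by
    rw [hμ, ae_add_measure_iff]
    constructor
    · apply Measure.ae_smul_measure
      rw [ae_dirac_eq]
      simp
    · apply Measure.ae_smul_measure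
      rw [ae_dirac_eq]
      simp
  have hsub := hasSubgaussianMGF_of_mem_Icc (μ := μ) (X := id) aemeasurable_id hb
  have hm := hsub.mgf_le (-u)
  have hmean : ∫ y, id y ∂μ = ρ := by
    rw [hint]
    simp
  rw [mgf, hmean, hint] at hm
  have e1 : ((((‖(1 : ℝ) - 0‖₊ / 2) ^ 2 : NNReal) : ℝ)) * (-u) ^ 2 / 2 = u ^ 2 / 8 := by
    push_cast
    simp
    ring
  rw [e1] at hm
  have e2 : Real.exp (-(u * ρ) + u ^ 2 / 8) = Real.exp (-(u * ρ)) * Real.exp (u ^ 2 / 8) :=
    Real.exp_add _ _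
  rw [e2]
  have h3 := mul_le_mul_of_nonneg_left hm (Real.exp_pos (-(u * ρ))).le
  refine le_trans (le_of_eq ?_) h3
  simp only [id]
  rw [mul_add]
  have e3 : Real.exp (-(u * ρ)) * ((1 - ρ) * Real.exp (-u * (0 - ρ))) = 1 - ρ := by
    have : Real.exp (-(u * ρ)) * Real.exp (-u * (0 - ρ)) = 1 := by
      rw [← Real.exp_add]
      have : -(u * ρ) + -u * (0 - ρ) = 0 := by ring
      rw [this, Real.exp_zero]
    calc _ = (1 - ρ) * (Real.exp (-(u * ρ)) * Real.exp (-u * (0 - ρ))) := by ring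
      _ = 1 - ρ := by rw [this, mul_one]
  have e4 : Real.exp (-(u * ρ)) * (ρ * Real.exp (-u * (1 - ρ))) = ρ * Real.exp (-u) := by
    have : Real.exp (-(u * ρ)) * Real.exp (-u * (1 - ρ)) = Real.exp (-u) := by
      rw [← Real.exp_add]
      congr 1
      ring
    calc _ = ρ * (Real.exp (-(u * ρ)) * Real.exp (-u * (1 - ρ))) := by ring
      _ = ρ * Real.exp (-u) := by rw [this]
  rw [e3, e4]

/-- Hoeffding's inequality for the lower tail -/
lemma binLt_hoeffding {ρ η : ℝ} (h0 : 0 ≤ ρ) (h1 : ρ ≤ 1) (hη : 0 ≤ η) (t r : ℕ)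
    (hr : (r : ℝ) + η * t ≤ ρ * t) : binLt ρ t r ≤ Real.exp (-(2 * η ^ 2 * t)) := by
  have hu : 0 ≤ 4 * η := by linarith
  refine (binLt_le h0 h1 hu t r).trans ?_
  have h2 := hoeffding h0 h1 (4 * η)
  have hb : 0 ≤ 1 - ρ + ρ * Real.exp (-(4 * η)) := by
    have := mul_nonneg h0 (Real.exp_pos (-(4 * η))).le
    linarith
  calc Real.exp (4 * η * r) * (1 - ρ + ρ * Real.exp (-(4 * η))) ^ t
      ≤ Real.exp (4 * η * r) * Real.exp (-(4 * η * ρ) + (4 * η) ^ 2 / 8) ^ t :=
        mul_le_mul_of_nonneg_left (pow_le_pow_left₀ hb h2 t) (Real.exp_pos _).le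
    _ = Real.exp (4 * η * r + t * (-(4 * η * ρ) + (4 * η) ^ 2 / 8)) := by
        rw [← Real.exp_nat_mul, ← Real.exp_add]
    _ ≤ Real.exp (-(2 * η ^ 2 * t)) := by
        apply Real.exp_le_exp.2
        have := mul_le_mul_of_nonneg_left hr hu
        nlinarith

/-- the numerical form of the bound -/
theorem bound (s t : ℕ) (ht : 1 ≤ t) (hts : t ≤ s) : ∃ k : ℕ, 1 ≤ k ∧ ∃ ρ : ℝ, 0 ≤ ρ ∧ ρ ≤ 1 ∧
    (1 - (1 + Real.sqrt (t * Real.log s / 2)) / s) * ((t : ℝ) / s) ≤
      (1 - binLt ρ t (s - k * t)) / (k + ρ) := by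
  have ht0 : (0 : ℝ) < t := by exact_mod_cast ht
  have hs0 : (0 : ℝ) < s := by
    have : 0 < s := by omega
    exact_mod_cast this
  have hs1 : (1 : ℝ) ≤ s := by
    have : 1 ≤ s := by omega
    exact_mod_cast this
  set k := s / t with hk
  have hk1 : 1 ≤ k := (Nat.one_le_div_iff (by omega)).2 hts
  have hdiv : k * t + s % t = s := by
    rw [hk, mul_comm]
    exact Nat.div_add_mod s t
  have hr : s - k * t = s % t := by omega
  have hrt : s % t < t := Nat.mod_lt s (by omega)
  set r := s % t with hrdef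
  have hcast : (k : ℝ) * t + r = s := by exact_mod_cast hdiv
  have hk0 : (1 : ℝ) ≤ k := by exact_mod_cast hk1
  have hr0 : (0 : ℝ) ≤ r := Nat.cast_nonneg r
  set η := Real.sqrt (Real.log s / (2 * t)) with hη
  have hlog : 0 ≤ Real.log s := Real.log_nonneg hs1
  have hη0 : 0 ≤ η := Real.sqrt_nonneg _
  have hη2 : η ^ 2 = Real.log s / (2 * t) := Real.sq_sqrt (by positivity)
  have hηt : η * t = Real.sqrt (t * Real.log s / 2) := by
    symm
    rw [Real.sqrt_eq_iff_mul_self_eq (by positivity) (by positivity)]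
    have : η * t * (η * t) = η ^ 2 * t ^ 2 := by ring
    rw [this, hη2]
    field_simp
  rw [← hηt]
  have hx0 : 0 < (t : ℝ) / s := by positivity
  -- the basic inequality
  have basic : (1 - η * t / s) * ((t : ℝ) / s) ≤ 1 / ((s : ℝ) / t + η) := by
    have hpos : 0 < (s : ℝ) / t + η := by positivity
    rw [le_div_iff₀ hpos]
    have : (1 - η * t / s) * ((t : ℝ) / s) * ((s : ℝ) / t + η) = 1 - (η * t / s) ^ 2 := by
      field_simp
      ring
    rw [this]
    nlinarith [sq_nonneg (η * t / s)]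
  have hst : (s : ℝ) / t = k + r / t := by
    rw [← hcast]
    field_simp
  refine ⟨k, hk1, ?_⟩
  rw [hr]
  by_cases hc : 1 ≤ (r : ℝ) / t + η
  · refine ⟨1, zero_le_one, le_rfl, ?_⟩
    have hb : binLt 1 t r = 0 := by
      unfold binLt
      apply Finset.sum_eq_zero
      intro i hi
      have : i < r := Finset.mem_range.1 hi
      have h2 : t - i ≠ 0 := by omega
      simp [h2]
    rw [hb, sub_zero]
    have h2 : 1 / ((s : ℝ) / t + η) ≤ 1 / ((k : ℝ) + 1) := by
      apply one_div_le_one_div_of_le (by linarith)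
      rw [hst]
      linarith
    refine le_trans ?_ (basic.trans h2)
    apply mul_le_mul_of_nonneg_right _ hx0.le
    have : η * t / s ≤ (1 + η * t) / s := div_le_div_of_nonneg_right (by linarith) hs0.le
    linarith
  · have hc' := not_le.1 hc
    have hρ0 : 0 ≤ (r : ℝ) / t + η := by positivity
    refine ⟨(r : ℝ) / t + η, hρ0, hc'.le, ?_⟩
    have hh := binLt_hoeffding hρ0 hc'.le hη0 t r (by
      apply le_of_eq
      field_simp)
    have he : Real.exp (-(2 * η ^ 2 * t)) = 1 / s := by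
      have : 2 * η ^ 2 * t = Real.log s := by
        rw [hη2]
        field_simp
      rw [this, Real.exp_neg, Real.exp_log hs0, one_div]
    rw [he] at hh
    have e1 : (k : ℝ) + ((r : ℝ) / t + η) = (s : ℝ) / t + η := by rw [hst]; ring
    rw [e1]
    have hpos : 0 < (s : ℝ) / t + η := by positivity
    have hs1' : 0 ≤ 1 - 1 / (s : ℝ) := by
      have : 1 / (s : ℝ) ≤ 1 := by
        rw [div_le_one hs0]
        exact hs1
      linarith
    calc (1 - (1 + η * t) / s) * ((t : ℝ) / s)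
        ≤ (1 - 1 / (s : ℝ)) * ((1 - η * t / s) * ((t : ℝ) / s)) := by
          rw [← mul_assoc]
          apply mul_le_mul_of_nonneg_right _ hx0.le
          have : (1 - 1 / (s : ℝ)) * (1 - η * t / s) = 1 - (1 + η * t) / s +
              (1 / s) * (η * t / s) := by ring
          rw [this]
          have : 0 ≤ (1 / (s : ℝ)) * (η * t / s) := by positivity
          linarith
      _ ≤ (1 - 1 / (s : ℝ)) * (1 / ((s : ℝ) / t + η)) := mul_le_mul_of_nonneg_left basic hs1'
      _ ≤ (1 - binLt ((r : ℝ) / t + η) t r) * (1 / ((s : ℝ) / t + η)) := by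
          apply mul_le_mul_of_nonneg_right _ (by positivity)
          linarith
      _ = (1 - binLt ((r : ℝ) / t + η) t r) / ((s : ℝ) / t + η) := by ring

end Pool.Agent.W_MP_012456_h20
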